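import Pool.Agent.H49.LAN.Stmts

set_option autoImplicit false

open scoped BigOperators
open Finset

namespace LAN

namespace ASQ

lemma Z_add {L : Type} [Field L] {q : ℕ} [NeZero q] {z : L} (hz : z ^ q = 1) (x y : ZMod q) :
    Z z (x + y) = Z z x * Z z y := by
  unfold Z
  rw [← pow_add, ZMod.val_add]
  conv_rhs => rw [← Nat.div_add_mod (x.val + y.val) q, pow_add, pow_mul, hz, one_pow, one_mul]

lemma Z_zero {L : Type} [Field L] {q : ℕ} [NeZero q] (z : L) : Z z (0 : ZMod q) = 1 := by
  simp [Z]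

lemma Z_mul_neg {L : Type} [Field L] {q : ℕ} [NeZero q] {z : L} (hz : z ^ q = 1) (x : ZMod q) :
    Z z x * Z z (-x) = 1 := by
  rw [← Z_add hz, add_neg_cancel, Z_zero]

lemma Z_neg {L : Type} [Field L] {q : ℕ} [NeZero q] {z : L} (hz : z ^ q = 1) (x : ZMod q) :
    Z z (-x) = (Z z x)⁻¹ :=
  (inv_eq_of_mul_eq_one_right (Z_mul_neg hz x)).symm

lemma conj_root {L : Type} [Field L] [NumberField L] {τ : L ≃ₐ[ℚ] L} (hτ : IsConj τ)
    {q : ℕ} [NeZero q] {z : L} (hz : z ^ q = 1) (x : ZMod q) : τ (Z z x) = Z z (-x) := by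
  obtain ⟨φ⟩ : Nonempty (L →+* ℂ) := inferInstance
  apply φ.injective
  rw [hτ φ, Z_neg hz, map_inv₀]
  have h1 : (φ (Z z x)) ^ q = 1 := by
    rw [← map_pow]
    have : (Z z x) ^ q = 1 := by
      unfold Z
      rw [← pow_mul, mul_comm, pow_mul, hz, one_pow]
    rw [this, map_one]
  have h2 : ‖φ (Z z x)‖ = 1 := Complex.norm_eq_one_of_pow_eq_one h1 (NeZero.ne q)
  rw [Complex.inv_def, Complex.normSq_eq_norm_sq, h2]
  simp

lemma conj_conj {L : Type} [Field L] [NumberField L] {τ : L ≃ₐ[ℚ] L} (hτ : IsConj τ) (x : L) :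
    τ (τ x) = x := by
  obtain ⟨φ⟩ : Nonempty (L →+* ℂ) := inferInstance
  apply φ.injective
  rw [hτ φ, hτ φ, Complex.conj_conj]

lemma fixed_int {L : Type} [Field L] [NumberField L] [IsGalois ℚ L] (c : L)
    (h : ∀ σ : L ≃ₐ[ℚ] L, σ c = c) (hc : IsIntegral ℤ c) : ∃ n : ℤ, c = n := by
  have h1 := (IsGalois.mem_range_algebraMap_iff_fixed (F := ℚ) c).mpr h
  obtain ⟨r, rfl⟩ := h1
  rw [isIntegral_algebraMap_iff (algebraMap ℚ L).injective] at hc
  obtain ⟨n, hn⟩ := IsIntegrallyClosed.isIntegral_iff.mp hc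
  refine ⟨n, ?_⟩
  rw [← hn]
  simp

end ASQ

theorem gss : GSSStmt := by
  classical
  intro p _ L _ _ z hp2 hz hcyc τ hτ
  have hp : p.Prime := Fact.out
  have : NeZero p := ⟨hp.ne_zero⟩
  have hz1 : z ^ p = 1 := hz.pow_eq_one
  set ψ := AddChar.zmodChar p ((IsPrimitiveRoot.iff_def z p).mp hz).left with hψ
  have hψp : ψ.IsPrimitive := AddChar.zmodChar_primitive_of_primitive_root p hz
  set χ : MulChar (ZMod p) L := (quadraticChar (ZMod p)).ringHomComp (Int.castRingHom L) with hχ
  have hχ1 : χ ≠ 1 := by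
    rw [hχ, Ne, MulChar.ringHomComp_eq_one_iff (Int.cast_injective)]
    exact quadraticChar_ne_one (by rw [ZMod.ringChar_zmod_n]; exact hp2)
  have hχ2 : χ.IsQuadratic := (quadraticChar_isQuadratic (ZMod p)).comp _
  have hsq := gaussSum_sq hχ1 hχ2 hψp
  rw [ZMod.card] at hsq
  set G := gaussSum χ ψ with hG
  have hint : IsIntegral ℤ G := by
    rw [hG, gaussSum]
    apply IsIntegral.sum
    intro a _
    apply IsIntegral.mul
    · rw [hχ]
      simp only [MulChar.ringHomComp_apply]
      exact isIntegral_algebraMap (R := ℤ) (A := L) (x := quadraticChar (ZMod p) a)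
    · rw [hψ, AddChar.zmodChar_apply]
      apply IsIntegral.pow
      exact IsIntegral.of_pow hp.pos (by rw [hz1]; exact isIntegral_one)
  have hpm : G ^ 2 = (p : L) ∨ G ^ 2 = -(p : L) := by
    have hm1 : χ (-1) = 1 ∨ χ (-1) = -1 := by
      rcases hχ2 (-1) with h | h | h
      · exfalso
        have h3 : χ (-1) * χ (-1) = 1 := by
          rw [← map_mul]; simp
        rw [h, zero_mul] at h3
        exact zero_ne_one h3
      · exact Or.inl h
      · exact Or.inr h
    rcases hm1 with h | h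
    · left; rw [hsq, h, one_mul]
    · right; rw [hsq, h]; ring
  refine ⟨G, hint, ?_, hpm⟩
  obtain ⟨φ⟩ : Nonempty (L →+* ℂ) := inferInstance
  apply φ.injective
  rw [map_mul, hτ φ, Complex.mul_conj, Complex.normSq_eq_norm_sq, map_natCast]
  have h1 : ‖φ G‖ ^ 2 = p := by
    rw [← norm_pow, ← map_pow]
    rcases hpm with h | h
    · rw [h, map_natCast]; simp
    · rw [h, map_neg, norm_neg, map_natCast]; simp
  rw [h1]
  simp

open ASQ in
theorem asq (hDIV : DIVStmt) (hREP : REPStmt) (hREL : RELStmt) (hGSS : GSSStmt) (hAIN : AINStmt) :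
    ASQStmt := by
  classical
  intro p a m _ L _ _ z hp2 hz hcyc τ hτ e he hem hm
  have hp : p.Prime := Fact.out
  have hppos := hp.pos
  have : NeZero p := ⟨hp.ne_zero⟩
  have : NeZero (p ^ 1) := ⟨by rw [pow_one]; exact hp.ne_zero⟩
  have hgal : IsGalois ℚ L := IsCyclotomicExtension.isGalois {p} ℚ L
  have hC : Ctx p 1 1 L z := ⟨le_refl _, le_refl _, Nat.coprime_one_right p,
    by simpa using hcyc, by simpa using hz⟩
  have hzq : z ^ (p ^ 1) = 1 := hC.hz.pow_eq_one
  have hFix : ∀ σ : L ≃ₐ[ℚ] L, FixW 1 σ := by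
    intro σ y hy
    rw [pow_one] at hy
    rw [hy, map_one]
  have hpL : (p : L) ≠ 0 := by exact_mod_cast hppos.ne'
  have hmint : IsIntegral ℤ (m : L) := by
    have := isIntegral_algebraMap (R := ℤ) (A := L) (x := (m : ℤ))
    simpa using this
  have hτint : IsIntegral ℤ (τ e) := he.map (τ.toAlgHom.restrictScalars ℤ)
  have hv := hDIV p 1 1 L z hC τ (hFix τ) (τ e) e (m : L) a hτint he hmint (by
    rw [mul_comm]; exact hem)
  rw [conj_conj hτ] at hv
  obtain ⟨G, hGint, hGG, hG2⟩ := hGSS p L z hp2 hz hcyc τ hτ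
  -- the reduced element
  have hred : ∃ e' : L, IsIntegral ℤ e' ∧ e' * τ e' = (m : L) := by
    rcases Nat.even_or_odd' a with ⟨b, hb | hb⟩
    · refine ⟨e / (p : L) ^ b, ?_, ?_⟩
      · apply IsIntegral.of_pow (n := 2) (by norm_num)
        have : (e / (p : L) ^ b) ^ 2 = e * e / (p : L) ^ a := by
          rw [hb, div_pow, ← pow_mul, mul_comm b 2, sq]
        rw [this]; exact hv
      · rw [map_div₀, map_pow, map_natCast]
        rw [hb] at hem
        rw [div_mul_div_comm, hem, ← pow_add, two_mul]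
        field_simp
    · refine ⟨e * G / (p : L) ^ (b + 1), ?_, ?_⟩
      · apply IsIntegral.of_pow (n := 2) (by norm_num)
        have h1 : (e * G / (p : L) ^ (b + 1)) ^ 2 = (e * e / (p : L) ^ a) * (G ^ 2 / p) := by
          rw [hb]
          field_simp
          ring
        rw [h1]
        rcases hG2 with h | h
        · rw [h, div_self hpL, mul_one]; exact hv
        · rw [h, neg_div, div_self hpL, mul_neg, mul_one]; exact hv.neg
      · rw [map_div₀, map_mul, map_pow, map_natCast]
        rw [hb] at hem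
        have : e * G / (p : L) ^ (b + 1) * (τ e * τ G / (p : L) ^ (b + 1)) =
            (e * τ e) * (G * τ G) / ((p : L) ^ (b + 1) * (p : L) ^ (b + 1)) := by
          field_simp
        rw [this, hem, hGG]
        field_simp
        ring
  obtain ⟨e', he', hem'⟩ := hred
  obtain ⟨c, hc, hec⟩ := hREP p 1 1 L z hC e' he'
  have hint : ∀ x, ∃ n : ℤ, c x = n := fun x =>
    fixed_int (c x) (fun σ => (hc x).2 σ (hFix σ)) (hc x).1
  choose A hA using hint
  have hec' : e' = ∑ x, (A x : L) * Z z x := by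
    rw [hec]; exact sum_congr rfl (fun x _ => by rw [hA])
  have hτe : τ e' = ∑ x, (A x : L) * Z z (-x) := by
    rw [hec', map_sum]
    exact sum_congr rfl (fun x _ => by rw [map_mul, map_intCast, conj_root hτ hzq])
  have hprod : e' * τ e' = ∑ d, ((∑ y, A (y + d) * A y : ℤ) : L) * Z z d := by
    rw [hτe, hec', sum_mul_sum, sum_comm]
    have : ∀ y : ZMod (p ^ 1), ∑ x, (A x : L) * Z z x * ((A y : L) * Z z (-y)) =
        ∑ d, (A (y + d) : L) * (A y : L) * Z z d := by
      intro y
      rw [← Equiv.sum_comp (Equiv.addLeft y)]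
      apply sum_congr rfl
      intro d _
      simp only [Equiv.coe_addLeft]
      rw [Z_add hzq y d]
      have := Z_mul_neg hzq y
      linear_combination ((A (y + d) : L) * (A y : L) * Z z d) * this
    rw [sum_congr rfl (fun y _ => this y), sum_comm]
    refine sum_congr rfl (fun d _ => ?_)
    push_cast
    rw [sum_mul]
  set bb : ZMod (p ^ 1) → ℤ := fun d => (∑ y, A (y + d) * A y) - if d = 0 then (m : ℤ) else 0
    with hbb
  have hbb0 : ∑ d, ((bb d : ℤ) : L) * Z z d = 0 := by
    have h1 : ∀ d, ((bb d : ℤ) : L) * Z z d = ((∑ y, A (y + d) * A y : ℤ) : L) * Z z d -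
        (if d = 0 then (m : L) else 0) * Z z d := by
      intro d
      rw [← sub_mul]
      congr 1
      simp only [hbb]
      push_cast
      split_ifs <;> simp
    rw [sum_congr rfl (fun d _ => h1 d), sum_sub_distrib, ← hprod, hem']
    simp [Z_zero]
  have hper := hREL p 1 1 L z hC (fun d => ((bb d : ℤ) : L)) (fun d σ _ => map_intCast _ _) hbb0
  have hconst : ∀ d, bb d = bb 0 := by
    intro d
    have h0 : (p : ZMod (p ^ 1)) * d = 0 := by
      have : (p : ZMod (p ^ 1)) = 0 := by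
        rw [ZMod.natCast_eq_zero_iff, pow_one]
      rw [this, zero_mul]
    have := hper 0 d h0
    rw [zero_add] at this
    exact_mod_cast this
  -- transport to ZMod p
  let E : ZMod p ≃+* ZMod (p ^ 1) := ZMod.ringEquivCongr (pow_one p).symm
  refine hAIN p m (fun x => A (E x)) (bb 0) ?_ hm
  intro d
  have h1 : ∑ x, A (E (x + d)) * A (E x) = ∑ y, A (y + E d) * A y := by
    rw [← Equiv.sum_comp E.toEquiv]
    exact sum_congr rfl (fun x _ => by simp)
  rw [h1]
  have h2 := hconst (E d)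
  simp only [hbb] at h2 ⊢
  have h3 : (E d = 0) ↔ d = 0 := by simp
  by_cases hd : d = 0
  · subst hd
    simp only [map_zero, if_true]
    ring
  · have hd' : ¬ E d = 0 := fun h => hd (h3.mp h)
    rw [if_neg hd'] at h2
    rw [if_neg hd]
    linarith

end LAN
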