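import Pool.Agent.H49.LAN.Stmts

set_option autoImplicit false

open scoped BigOperators
open Finset

namespace LAN

namespace INE

lemma hq_eq {p s : ℕ} (hs : 1 ≤ s) : p ^ s = p ^ (s - 1) * p := by
  rw [← pow_succ]; congr 1; omega

lemma iota_inj {p s : ℕ} [hp : Fact p.Prime] (hs : 1 ≤ s) : Function.Injective (iota p s) := by
  intro a b hab
  have hppos : 0 < p := hp.out.pos
  unfold iota at hab
  rw [ZMod.natCast_eq_natCast_iff] at hab
  have h1 : p ^ (s - 1) * a.val < p ^ s := by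
    rw [hq_eq hs]; exact Nat.mul_lt_mul_of_pos_left (ZMod.val_lt a) (pow_pos hppos _)
  have h2 : p ^ (s - 1) * b.val < p ^ s := by
    rw [hq_eq hs]; exact Nat.mul_lt_mul_of_pos_left (ZMod.val_lt b) (pow_pos hppos _)
  have h3 := Nat.ModEq.eq_of_lt_of_lt hab h1 h2
  exact ZMod.val_injective p (Nat.eq_of_mul_eq_mul_left (pow_pos hppos _) h3)

lemma iota_mem {p s : ℕ} (hs : 1 ≤ s) (l : ZMod p) :
    (p : ZMod (p ^ s)) * iota p s l = 0 := by
  have : (p : ZMod (p ^ s)) * iota p s l = ((p ^ s * l.val : ℕ) : ZMod (p ^ s)) := by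
    unfold iota
    rw [hq_eq hs]; push_cast; ring
  rw [this, Nat.cast_mul, ZMod.natCast_self, zero_mul]

lemma mem_iota {p s : ℕ} [hp : Fact p.Prime] (hs : 1 ≤ s) (y : ZMod (p ^ s))
    (hy : (p : ZMod (p ^ s)) * y = 0) : ∃ l, iota p s l = y := by
  have hppos : 0 < p := hp.out.pos
  have : NeZero (p ^ s) := ⟨(pow_pos hppos s).ne'⟩
  have h1 : ((p * y.val : ℕ) : ZMod (p ^ s)) = 0 := by
    push_cast
    rw [ZMod.natCast_zmod_val]; exact hy
  rw [ZMod.natCast_eq_zero_iff] at h1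
  have h1' : p * p ^ (s - 1) ∣ p * y.val := by
    have : p * p ^ (s - 1) = p ^ s := by rw [hq_eq hs, mul_comm]
    rw [this]; exact h1
  have h2 : p ^ (s - 1) ∣ y.val := Nat.dvd_of_mul_dvd_mul_left hppos h1'
  obtain ⟨l, hl⟩ := h2
  have h3 : l < p := by
    have := ZMod.val_lt y
    rw [hl] at this
    have h4 : p ^ (s - 1) * l < p ^ (s - 1) * p := by rw [← hq_eq hs]; exact this
    exact Nat.lt_of_mul_lt_mul_left h4
  refine ⟨(l : ZMod p), ?_⟩
  unfold iota
  rw [ZMod.val_natCast, Nat.mod_eq_of_lt h3, ← hl, ZMod.natCast_zmod_val]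

lemma sum_Q {p s : ℕ} [hp : Fact p.Prime] (hs : 1 ≤ s) (G : ZMod (p ^ s) → ℤ) :
    ∑ y ∈ univ.filter (fun y : ZMod (p ^ s) => (p : ZMod (p ^ s)) * y = 0), G y =
      ∑ l : ZMod p, G (iota p s l) := by
  classical
  have : univ.filter (fun y : ZMod (p ^ s) => (p : ZMod (p ^ s)) * y = 0) =
      (univ : Finset (ZMod p)).image (iota p s) := by
    ext y
    rw [mem_filter, mem_image]
    constructor
    · intro h
      obtain ⟨l, hl⟩ := mem_iota hs y h.2
      exact ⟨l, mem_univ _, hl⟩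
    · rintro ⟨l, _, rfl⟩
      exact ⟨mem_univ _, iota_mem hs l⟩
  rw [this, sum_image (fun a _ b _ h => iota_inj hs h)]

lemma card_Q {p s : ℕ} [hp : Fact p.Prime] (hs : 1 ≤ s) :
    (univ.filter (fun y : ZMod (p ^ s) => (p : ZMod (p ^ s)) * y = 0)).card = p := by
  have h := sum_Q (p := p) hs (fun _ => (1 : ℤ))
  simp only [sum_const, card_univ, ZMod.card, nsmul_eq_mul, mul_one] at h
  exact_mod_cast h

/-- translation invariance of sums over `Q` -/
lemma sum_Q_add {p s : ℕ} [hp : Fact p.Prime] (G : ZMod (p ^ s) → ℤ) (i : ZMod (p ^ s))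
    (hi : (p : ZMod (p ^ s)) * i = 0) :
    ∑ y ∈ univ.filter (fun y : ZMod (p ^ s) => (p : ZMod (p ^ s)) * y = 0), G (i + y) =
      ∑ y ∈ univ.filter (fun y : ZMod (p ^ s) => (p : ZMod (p ^ s)) * y = 0), G y := by
  refine sum_bij' (fun y _ => i + y) (fun y _ => y - i) ?_ ?_ ?_ ?_ ?_
  · intro y hy
    rw [mem_filter] at hy ⊢
    exact ⟨mem_univ _, by rw [mul_add, hi, hy.2, add_zero]⟩
  · intro y hy
    rw [mem_filter] at hy ⊢
    exact ⟨mem_univ _, by rw [mul_sub, hi, hy.2, sub_zero]⟩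
  · intro y _; ring
  · intro y _; ring
  · intro y _; rfl

section shift

variable {W : Type} [CommGroup W] [Fintype W] {g : W} {N : ℕ}

/-- average over the powers of g -/
def Rr (g : W) (N : ℕ) (A : W → ℤ) (u : W) : ℤ := ∑ d ∈ range N, A (u * (g ^ d)⁻¹)

omit [Fintype W] in
lemma Rr_step (hg : g ^ N = 1) (A : W → ℤ) (u : W) : Rr g N A (u * g⁻¹) = Rr g N A u := by
  unfold Rr
  have h1 : ∀ d, A (u * g⁻¹ * (g ^ d)⁻¹) = (fun d => A (u * (g ^ d)⁻¹)) (d + 1) := by
    intro d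
    simp only [pow_succ, mul_inv_rev]
    congr 1
    group
  rw [sum_congr rfl (fun d _ => h1 d)]
  have h2 := sum_range_succ (fun d => A (u * (g ^ d)⁻¹)) N
  have h3 := sum_range_succ' (fun d => A (u * (g ^ d)⁻¹)) N
  rw [h3] at h2
  simp only [hg, pow_zero] at h2
  linarith

omit [Fintype W] in
lemma Rr_inv (hg : g ^ N = 1) (A : W → ℤ) (u : W) (d : ℕ) :
    Rr g N A (u * (g ^ d)⁻¹) = Rr g N A u := by
  induction d with
  | zero => simp
  | succ n ih =>
    rw [← ih, pow_succ, mul_inv_rev]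
    have : u * (g⁻¹ * (g ^ n)⁻¹) = (u * (g ^ n)⁻¹) * g⁻¹ := by
      rw [mul_comm g⁻¹, mul_assoc]
    rw [this, Rr_step hg]

lemma sum_shift (A : W → ℤ) (h : W) : ∑ u, A (u * h) = ∑ u, A u :=
  Equiv.sum_comp (Equiv.mulRight h) A

lemma sum_Rr (A : W → ℤ) : ∑ u, Rr g N A u = N * ∑ u, A u := by
  unfold Rr
  rw [sum_comm]
  rw [sum_congr rfl (fun d _ => sum_shift A ((g ^ d)⁻¹))]
  simp

lemma sum_Rr_mul (hg : g ^ N = 1) (A B : W → ℤ) :
    ∑ u, Rr g N A u * Rr g N B u = N * ∑ u, A u * Rr g N B u := by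
  have h : ∀ u, Rr g N A u * Rr g N B u =
      ∑ d ∈ range N, A (u * (g ^ d)⁻¹) * Rr g N B (u * (g ^ d)⁻¹) := by
    intro u
    simp only [Rr_inv hg B]
    rw [← sum_mul]; rfl
  rw [sum_congr rfl (fun u _ => h u), sum_comm]
  rw [sum_congr rfl (fun d _ => sum_shift (fun u => A u * Rr g N B u) ((g ^ d)⁻¹))]
  simp

omit [Fintype W] in
lemma Rr_Rr (hg : g ^ N = 1) (A : W → ℤ) (u : W) : Rr g N (Rr g N A) u = N * Rr g N A u := by
  conv_lhs => unfold Rr
  rw [show (∑ d ∈ range N, (fun v => ∑ e ∈ range N, A (v * (g ^ e)⁻¹)) (u * (g ^ d)⁻¹)) =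
    ∑ d ∈ range N, Rr g N A (u * (g ^ d)⁻¹) from rfl]
  rw [sum_congr rfl (fun d _ => Rr_inv hg A u d)]
  simp

omit [Fintype W] in
lemma Rr_add (A B : W → ℤ) (c : ℤ) (u : W) :
    Rr g N (fun v => c * A v + B v) u = c * Rr g N A u + Rr g N B u := by
  unfold Rr
  rw [sum_add_distrib, mul_sum]

lemma sum_K_R (K : W → ℤ) :
    ∑ u, K u * Rr g N K u = ∑ d ∈ range N, Cor K (g ^ d) := by
  unfold Rr Cor
  simp only [mul_sum]
  rw [sum_comm]
  apply sum_congr rfl
  intro d _
  rw [← sum_shift (fun u => K u * K (u * (g ^ d)⁻¹)) (g ^ d)]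
  apply sum_congr rfl
  intro u _
  rw [mul_inv_cancel_right]

omit [Fintype W] in
/-- counting pairs of equal powers -/
lemma count_pairs [DecidableEq W] (hg : g ^ N = 1) (n : ℤ) :
    ∑ d ∈ range N, ∑ e ∈ range N, (if (g ^ d)⁻¹ = (g ^ e)⁻¹ then n else 0) =
      N * (n * ((range N).filter (fun d => g ^ d = 1)).card) := by
  have h : ∀ d, ∑ e ∈ range N, (if (g ^ d)⁻¹ = (g ^ e)⁻¹ then n else 0) =
      n * ((range N).filter (fun d => g ^ d = 1)).card := by
    intro d
    have h1 := Rr_inv (N := N) hg (fun x => if x = 1 then n else 0) (g ^ d * (g ^ d)) d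
    have h2 := Rr_inv (N := N) hg (fun x => if x = 1 then n else 0) (g ^ d) d
    rw [mul_inv_cancel] at h2
    rw [mul_inv_cancel_right] at h1
    have h3 : ∑ e ∈ range N, (if (g ^ d)⁻¹ = (g ^ e)⁻¹ then n else 0) =
        Rr g N (fun x => if x = 1 then n else 0) (g ^ d) := by
      unfold Rr
      apply sum_congr rfl
      intro e _
      congr 1
      rw [mul_inv_eq_one, inv_inj]
    rw [h3, ← h2]
    unfold Rr
    simp only [one_mul, inv_eq_one]
    rw [← sum_filter, sum_const, nsmul_eq_mul, mul_comm]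
  rw [sum_congr rfl (fun d _ => h d)]
  simp

end shift

lemma gen_sum {p : ℕ} [hp : Fact p.Prime] (τ : (ZMod p)ˣ)
    (hgen : ∀ x : (ZMod p)ˣ, x ∈ Subgroup.zpowers τ) (G : ZMod p → ℤ) :
    ∑ l, G l = G 0 + ∑ j ∈ range (p - 1), G (↑(τ ^ j)⁻¹ : ZMod p) := by
  classical
  have hord : orderOf τ = p - 1 := by
    rw [orderOf_eq_card_of_forall_mem_zpowers hgen, Nat.card_eq_fintype_card,
      ZMod.card_units_eq_totient, Nat.totient_prime hp.out]
  have himg := IsCyclic.image_range_orderOf hgen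
  rw [hord] at himg
  have h1 : ∑ j ∈ range (p - 1), G (↑(τ ^ j)⁻¹ : ZMod p) = ∑ x : (ZMod p)ˣ, G (↑(x⁻¹) : ZMod p) := by
    rw [← himg, sum_image]
    intro a ha b hb hab
    have := pow_injOn_Iio_orderOf (x := τ) (by rw [hord]; simpa using ha) (by rw [hord]; simpa using hb) hab
    exact this
  have h1' : ∑ x : (ZMod p)ˣ, G (↑(x⁻¹) : ZMod p) = ∑ x : (ZMod p)ˣ, G (x : ZMod p) :=
    Equiv.sum_comp (Equiv.inv (ZMod p)ˣ) (fun x => G (x : ZMod p))
  rw [h1, h1']
  rw [← Finset.add_sum_erase univ G (mem_univ 0)]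
  congr 1
  symm
  refine sum_bij' (fun (x : (ZMod p)ˣ) _ => (x : ZMod p))
    (fun x hx => Units.mk0 x (ne_of_mem_erase hx)) ?_ ?_ ?_ ?_ ?_
  · intro x _
    exact mem_erase.mpr ⟨x.ne_zero, mem_univ _⟩
  · intro x _; exact mem_univ _
  · intro x _; simp
  · intro x _; simp
  · intro x _; rfl

end INE

open INE in
theorem ine (hOUT : OUTStmt) : INEStmt := by
  classical
  intro p s _ W _ _ _ f n lam τ g r hp2 hs hf hDS hinv hBS hr
  have hp : p.Prime := Fact.out
  have hppos : 0 < p := hp.pos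
  have : NeZero (p ^ s) := ⟨(pow_pos hppos s).ne'⟩
  obtain ⟨hκ, hS, hCor, hK01, hB0, hB1⟩ := hOUT p W _ _ τ g n hp2 hBS
  set K : W → ℤ := fun u => f (iota p s 1) u - f (iota p s 0) u with hK
  set B0 : W → ℤ := fun u => f (iota p s 0) u with hB0def
  set N : ℕ := p - 1 with hN
  have hgN : g ^ N = 1 := hBS.gp
  set Q := univ.filter (fun y : ZMod (p ^ s) => (p : ZMod (p ^ s)) * y = 0) with hQ
  have hQc : Q.card = p := card_Q hs
  set k : ℤ := ∑ i, ∑ u, f i u with hk
  set κ : ℤ := ∑ u, K u with hκdef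
  set S : ℤ := ∑ u, K u ^ 2 with hSdef
  set F : ZMod (p ^ s) → W → ℤ := fun i u => ∑ y ∈ Q, f (i + y) u with hF
  set R : W → ℤ := Rr g N K with hR
  set X : ZMod (p ^ s) → W → ℤ := fun i u => Rr g N (F i) u - if i ∈ Q then R u else 0 with hX
  -- total sum
  have hiota0 : iota p s 0 = 0 := by simp [iota]
  have hFsum : ∑ i, ∑ u, F i u = p * k := by
    simp only [hF]
    have : ∀ i, ∑ u, ∑ y ∈ Q, f (i + y) u = ∑ y ∈ Q, ∑ u, f (i + y) u := fun i => sum_comm
    rw [sum_congr rfl (fun i _ => this i), sum_comm]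
    have h2 : ∀ y ∈ Q, ∑ i, ∑ u, f (i + y) u = k := by
      intro y _
      exact Equiv.sum_comp (Equiv.addRight y) (fun i => ∑ u, f i u)
    rw [sum_congr rfl h2, sum_const, hQc, nsmul_eq_mul]
  have hRsum : ∑ u, R u = N * κ := sum_Rr K
  have hXsum : ∑ i, ∑ u, X i u = N * p * (k - κ) := by
    have h1 : ∑ i, ∑ u, X i u = ∑ i, ∑ u, Rr g N (F i) u - ∑ i, ∑ u, (if i ∈ Q then R u else 0) := by
      simp only [hX, sum_sub_distrib]
    rw [h1]
    have h2 : ∑ i, ∑ u, Rr g N (F i) u = N * (p * k) := by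
      rw [sum_congr rfl (fun i _ => sum_Rr (F i)), ← mul_sum, hFsum]
    have h3 : ∑ i, ∑ u, (if i ∈ Q then R u else 0) = p * (N * κ) := by
      have : ∀ i, ∑ u, (if i ∈ Q then R u else 0) = if i ∈ Q then N * κ else 0 := by
        intro i
        split_ifs
        · exact hRsum
        · simp
      rw [sum_congr rfl (fun i _ => this i), sum_ite_mem, univ_inter, sum_const, hQc, nsmul_eq_mul]
    rw [h2, h3]; ring
  -- correlations
  have hcorr : ∀ (y y' : ZMod (p ^ s)) (h h' : W),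
      ∑ i, ∑ u, f (i + y) (u * h) * f (i + y') (u * h') =
        lam + if y = y' ∧ h = h' then n else 0 := by
    intro y y' h h'
    have h0 := hDS.ac (y - y') (h * h'⁻¹)
    rw [← Equiv.sum_comp (Equiv.addRight y')] at h0
    have h1 : ∀ i, ∑ u, f ((Equiv.addRight y') i + (y - y')) (u * (h * h'⁻¹)) *
        f ((Equiv.addRight y') i) u = ∑ u, f (i + y) (u * h) * f (i + y') (u * h') := by
      intro i
      rw [← Equiv.sum_comp (Equiv.mulRight h')]
      apply sum_congr rfl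
      intro u _
      simp only [Equiv.coe_addRight, Equiv.coe_mulRight]
      have e1 : i + y' + (y - y') = i + y := by ring
      have e2 : u * h' * (h * h'⁻¹) = u * h := by
        rw [mul_assoc, mul_comm h h'⁻¹, mul_inv_cancel_left]
      rw [e1, e2]
    rw [sum_congr rfl (fun i _ => h1 i)] at h0
    rw [h0]
    congr 1
    simp only [sub_eq_zero, mul_inv_eq_one]
  have hFcorr : ∀ (h h' : W), ∑ i, ∑ u, F i (u * h) * F i (u * h') =
      (p : ℤ) ^ 2 * lam + if h = h' then p * n else 0 := by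
    intro h h'
    have h1 : ∀ i u, F i (u * h) * F i (u * h') =
        ∑ y ∈ Q, ∑ y' ∈ Q, f (i + y) (u * h) * f (i + y') (u * h') := by
      intro i u
      simp only [hF]
      rw [sum_mul_sum]
    have h2 : ∑ i, ∑ u, F i (u * h) * F i (u * h') =
        ∑ y ∈ Q, ∑ y' ∈ Q, ∑ i, ∑ u, f (i + y) (u * h) * f (i + y') (u * h') := by
      simp only [h1]
      calc ∑ i, ∑ u, ∑ y ∈ Q, ∑ y' ∈ Q, f (i + y) (u * h) * f (i + y') (u * h')
          = ∑ i, ∑ y ∈ Q, ∑ u, ∑ y' ∈ Q, f (i + y) (u * h) * f (i + y') (u * h') :=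
            sum_congr rfl (fun i _ => sum_comm)
        _ = ∑ y ∈ Q, ∑ i, ∑ u, ∑ y' ∈ Q, f (i + y) (u * h) * f (i + y') (u * h') := sum_comm
        _ = ∑ y ∈ Q, ∑ i, ∑ y' ∈ Q, ∑ u, f (i + y) (u * h) * f (i + y') (u * h') :=
            sum_congr rfl (fun y _ => sum_congr rfl (fun i _ => sum_comm))
        _ = _ := sum_congr rfl (fun y _ => sum_comm)
    rw [h2]
    simp only [hcorr]
    have h3 : ∀ y ∈ Q, ∑ y' ∈ Q, (lam + if y = y' ∧ h = h' then n else 0) =
        p * lam + if h = h' then n else 0 := by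
      intro y hy
      rw [sum_add_distrib, sum_const, hQc, nsmul_eq_mul]
      congr 1
      by_cases hh : h = h'
      · simp only [hh, and_true, if_true]
        rw [sum_ite_eq, if_pos hy]
      · simp [hh]
    rw [sum_congr rfl h3, sum_const, hQc, nsmul_eq_mul]
    split_ifs <;> ring
  have hFh2 : ∑ i, ∑ u, (Rr g N (F i) u) ^ 2 =
      (N : ℤ) ^ 2 * (p : ℤ) ^ 2 * lam + N * (p * n * r) := by
    have h1 : ∀ i u, (Rr g N (F i) u) ^ 2 =
        ∑ d ∈ range N, ∑ e ∈ range N, F i (u * (g ^ d)⁻¹) * F i (u * (g ^ e)⁻¹) := by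
      intro i u
      unfold Rr
      rw [sq, sum_mul_sum]
    have h2 : ∑ i, ∑ u, (Rr g N (F i) u) ^ 2 =
        ∑ d ∈ range N, ∑ e ∈ range N, ∑ i, ∑ u, F i (u * (g ^ d)⁻¹) * F i (u * (g ^ e)⁻¹) := by
      simp only [h1]
      calc ∑ i, ∑ u, ∑ d ∈ range N, ∑ e ∈ range N, F i (u * (g ^ d)⁻¹) * F i (u * (g ^ e)⁻¹)
          = ∑ i, ∑ d ∈ range N, ∑ u, ∑ e ∈ range N, F i (u * (g ^ d)⁻¹) * F i (u * (g ^ e)⁻¹) :=
            sum_congr rfl (fun i _ => sum_comm)
        _ = ∑ d ∈ range N, ∑ i, ∑ u, ∑ e ∈ range N, F i (u * (g ^ d)⁻¹) * F i (u * (g ^ e)⁻¹) :=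
            sum_comm
        _ = ∑ d ∈ range N, ∑ i, ∑ e ∈ range N, ∑ u, F i (u * (g ^ d)⁻¹) * F i (u * (g ^ e)⁻¹) :=
            sum_congr rfl (fun y _ => sum_congr rfl (fun i _ => sum_comm))
        _ = _ := sum_congr rfl (fun y _ => sum_comm)
    rw [h2]
    simp only [hFcorr, sum_add_distrib]
    rw [count_pairs hgN (p * n), ← hr]
    simp only [sum_const, card_range, nsmul_eq_mul]
    ring
  -- on Q
  have hF0 : ∀ i ∈ Q, ∀ u, F i u = p * B0 u + R u := by
    intro i hi u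
    have hi' : (p : ZMod (p ^ s)) * i = 0 := (mem_filter.mp hi).2
    simp only [hF]
    rw [sum_Q_add (fun y => f y u) i hi', sum_Q hs, gen_sum τ hBS.gen (fun l => f (iota p s l) u)]
    have h1 : ∀ j ∈ range (p - 1), f (iota p s (↑(τ ^ j)⁻¹ : ZMod p)) u =
        B0 u + K (u * (g ^ j)⁻¹) := by
      intro j _
      have := hBS.rel j u
      simpa using this
    rw [sum_congr rfl h1, sum_add_distrib, sum_const, card_range, nsmul_eq_mul]
    have h2 : ((p - 1 : ℕ) : ℤ) = p - 1 := by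
      rw [Nat.cast_sub hppos]; simp
    rw [h2]
    have h3 : R u = ∑ j ∈ range (p - 1), K (u * (g ^ j)⁻¹) := rfl
    rw [h3]
    simp only [hB0def]
    ring
  have hFhQ : ∀ i ∈ Q, ∀ u, Rr g N (F i) u = p * Rr g N B0 u + N * R u := by
    intro i hi u
    have : F i = fun v => (p : ℤ) * B0 v + R v := funext (fun v => hF0 i hi v)
    rw [this, Rr_add, hR, Rr_Rr hgN]
  have hRR : ∑ u, R u * R u = N * (n * r) := by
    rw [hR, sum_Rr_mul hgN, sum_K_R, hCor, hr]
  have hBR : 2 * ∑ u, B0 u * R u = N * (κ - S) := by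
    have h1 : ∀ u, 2 * (B0 u * R u) =
        ∑ d ∈ range N, (K (u * (g ^ d)⁻¹) - K (u * (g ^ d)⁻¹) ^ 2) := by
      intro u
      have e1 : R u = ∑ d ∈ range N, K (u * (g ^ d)⁻¹) := rfl
      rw [e1, mul_sum, mul_sum]
      apply sum_congr rfl
      intro d _
      set v := u * (g ^ d)⁻¹ with hv
      have hu : u = v * g ^ d := by rw [hv, inv_mul_cancel_right]
      rcases hK01 v with h | h | h
      · have hKv : K v = 0 := h
        rw [hKv]; ring
      · have := hB0 v d h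
        rw [← hu] at this
        have hb : B0 u = 0 := this
        have hKv : K v = 1 := h
        rw [hKv, hb]; ring
      · have := hB1 v d h
        rw [← hu] at this
        have hb : B0 u = 1 := this
        have hKv : K v = -1 := h
        rw [hKv, hb]; ring
    rw [mul_sum, sum_congr rfl (fun u _ => h1 u), sum_comm]
    have h2 : ∀ d ∈ range N, ∑ u, (K (u * (g ^ d)⁻¹) - K (u * (g ^ d)⁻¹) ^ 2) = κ - S := by
      intro d _
      rw [sum_shift (fun v => K v - K v ^ 2) ((g ^ d)⁻¹), sum_sub_distrib]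
    rw [sum_congr rfl h2, sum_const, card_range, nsmul_eq_mul]
  have hXX : ∑ i, ∑ u, X i u ^ 2 =
      (N : ℤ) ^ 2 * (p : ℤ) ^ 2 * lam + N * (p * n * r)
        - 2 * (p * ∑ u, (p * Rr g N B0 u + N * R u) * R u) + p * ∑ u, R u * R u := by
    have h1 : ∀ i u, X i u ^ 2 = (Rr g N (F i) u) ^ 2 -
        (if i ∈ Q then 2 * ((p * Rr g N B0 u + N * R u) * R u) - R u * R u else 0) := by
      intro i u
      simp only [hX]
      split_ifs with hi
      · rw [hFhQ i hi u]; ring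
      · ring
    simp only [h1, sum_sub_distrib]
    rw [hFh2]
    have h2 : ∑ i, ∑ u, (if i ∈ Q then 2 * ((p * Rr g N B0 u + N * R u) * R u) - R u * R u else 0) =
        p * (∑ u, (2 * ((p * Rr g N B0 u + N * R u) * R u) - R u * R u)) := by
      have : ∀ i, ∑ u, (if i ∈ Q then 2 * ((p * Rr g N B0 u + N * R u) * R u) - R u * R u else 0) =
          if i ∈ Q then (∑ u, (2 * ((p * Rr g N B0 u + N * R u) * R u) - R u * R u)) else 0 := by
        intro i
        split_ifs
        · rfl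
        · simp
      rw [sum_congr rfl (fun i _ => this i), sum_ite_mem, univ_inter, sum_const, hQc, nsmul_eq_mul]
    rw [h2, sum_sub_distrib, ← mul_sum]
    ring
  have hcross : ∑ u, (p * Rr g N B0 u + N * R u) * R u =
      p * (N * ∑ u, B0 u * R u) + N * (N * (n * r)) := by
    have h1 : ∀ u, ((p : ℤ) * Rr g N B0 u + N * R u) * R u =
        p * (Rr g N B0 u * Rr g N K u) + N * (R u * R u) := by
      intro u
      have : Rr g N K u = R u := rfl
      rw [this]
      ring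
    rw [sum_congr rfl (fun u _ => h1 u), sum_add_distrib, ← mul_sum, ← mul_sum, hRR,
      sum_Rr_mul hgN]
  -- total
  have hk2 : k ^ 2 = n + lam * ((p ^ s * Fintype.card W : ℕ) : ℤ) := by
    have h1 : ∑ y : ZMod (p ^ s), ∑ h : W, (∑ i, ∑ u, f (i + y) (u * h) * f i u) =
        ∑ y : ZMod (p ^ s), ∑ h : W, (lam + if y = 0 ∧ h = 1 then n else 0) :=
      sum_congr rfl (fun y _ => sum_congr rfl (fun h _ => hDS.ac y h))
    have h2 : ∑ y : ZMod (p ^ s), ∑ h : W, (lam + if y = 0 ∧ h = 1 then n else 0) =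
        n + lam * ((p ^ s * Fintype.card W : ℕ) : ℤ) := by
      have : ∀ y : ZMod (p ^ s), ∑ h : W, (lam + if y = 0 ∧ h = 1 then n else 0) =
          (Fintype.card W : ℤ) * lam + if y = 0 then n else 0 := by
        intro y
        rw [sum_add_distrib, sum_const, card_univ, nsmul_eq_mul]
        congr 1
        by_cases hy : y = 0
        · simp [hy]
        · simp [hy]
      rw [sum_congr rfl (fun y _ => this y), sum_add_distrib, sum_const, card_univ, ZMod.card,
        nsmul_eq_mul]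
      simp
      ring
    have h3 : ∑ y : ZMod (p ^ s), ∑ h : W, (∑ i, ∑ u, f (i + y) (u * h) * f i u) = k ^ 2 := by
      calc ∑ y : ZMod (p ^ s), ∑ h : W, (∑ i, ∑ u, f (i + y) (u * h) * f i u)
          = ∑ y : ZMod (p ^ s), ∑ i, ∑ h : W, ∑ u, f (i + y) (u * h) * f i u :=
            sum_congr rfl (fun y _ => sum_comm)
        _ = ∑ i, ∑ y : ZMod (p ^ s), ∑ h : W, ∑ u, f (i + y) (u * h) * f i u := sum_comm
        _ = ∑ i, ∑ y : ZMod (p ^ s), ∑ u, ∑ h : W, f (i + y) (u * h) * f i u :=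
            sum_congr rfl (fun i _ => sum_congr rfl (fun y _ => sum_comm))
        _ = ∑ i, ∑ u, ∑ y : ZMod (p ^ s), ∑ h : W, f (i + y) (u * h) * f i u :=
            sum_congr rfl (fun i _ => sum_comm)
        _ = ∑ i, ∑ u, k * f i u := by
            apply sum_congr rfl; intro i _
            apply sum_congr rfl; intro u _
            have : ∀ y : ZMod (p ^ s), ∑ h : W, f (i + y) (u * h) * f i u =
                (∑ h, f (i + y) h) * f i u := by
              intro y
              rw [← sum_mul]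
              congr 1
              exact Equiv.sum_comp (Equiv.mulLeft u) (fun h => f (i + y) h)
            rw [sum_congr rfl (fun y _ => this y), ← sum_mul]
            congr 1
            exact Equiv.sum_comp (Equiv.addLeft i) (fun y => ∑ h, f y h)
        _ = k ^ 2 := by
            simp only [← mul_sum]
            rw [← hk, sq]
    rw [← h3, h1, h2]
  -- Cauchy-Schwarz
  have hCS : (∑ i, ∑ u, X i u) ^ 2 ≤ ((p ^ s * Fintype.card W : ℕ) : ℤ) * ∑ i, ∑ u, X i u ^ 2 := by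
    have h := sq_sum_le_card_mul_sum_sq (s := (univ : Finset (ZMod (p ^ s) × W)))
      (f := fun x => X x.1 x.2)
    rw [Fintype.sum_prod_type, Fintype.sum_prod_type, card_univ, Fintype.card_prod, ZMod.card] at h
    exact h
  rw [hXsum, hXX, hcross, hRR] at hCS
  set v : ℤ := ((p ^ s * Fintype.card W : ℕ) : ℤ) with hv
  have hNp : (N : ℤ) = p - 1 := by rw [hN, Nat.cast_sub hppos]; simp
  have hNpos : (0 : ℤ) < N := by
    have := hp.two_le
    rw [hNp]
    have : (2 : ℤ) ≤ p := by exact_mod_cast this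
    linarith
  have hpp : (0 : ℤ) < p := by exact_mod_cast hppos
  set b : ℤ := ∑ u, B0 u * R u with hb
  have key : 0 ≤ (N * p : ℤ) * ((N * p * (2 * k - v) * κ) -
      (2 * (p : ℤ) * n * N + v * n * (N * (r - 1) - 2 * r))) := by
    have hS' : (p : ℤ) * S = n * (1 + r) := by rw [hS, hr]
    have e : (N * p : ℤ) * ((N * p * (2 * k - v) * κ) -
        (2 * (p : ℤ) * n * N + v * n * (N * (r - 1) - 2 * r))) =
        v * ((N : ℤ) ^ 2 * (p : ℤ) ^ 2 * lam + N * (p * n * r)
        - 2 * (p * (p * (N * b) + N * (N * (n * r)))) + p * (N * (n * r))) -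
        (N * p * (k - κ)) ^ 2 := by
      linear_combination (N ^ 2 * p ^ 2 : ℤ) * hk2 + (N ^ 2 * p ^ 2 : ℤ) * hκ +
        (v * p ^ 2 * N : ℤ) * hBR - (v * p * N ^ 2 : ℤ) * hS'
    rw [e]
    linarith
  have hfin := nonneg_of_mul_nonneg_right key (mul_pos hNpos hpp)
  rw [hNp] at hfin
  linarith

end LAN
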