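import Pool.Agent.H49.LAN.Stmts

set_option autoImplicit false

open scoped BigOperators
open Finset

namespace LAN

namespace MON

lemma Z_add {L : Type} [Field L] {q : ℕ} [NeZero q] {z : L} (hz : z ^ q = 1) (x y : ZMod q) :
    Z z (x + y) = Z z x * Z z y := by
  unfold Z
  rw [← pow_add, ZMod.val_add]
  conv_rhs => rw [← Nat.div_add_mod (x.val + y.val) q, pow_add, pow_mul, hz, one_pow, one_mul]

lemma Z_zero {L : Type} [Field L] {q : ℕ} [NeZero q] (z : L) : Z z (0 : ZMod q) = 1 := by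
  simp [Z]

lemma Z_mul_neg {L : Type} [Field L] {q : ℕ} [NeZero q] {z : L} (hz : z ^ q = 1) (x : ZMod q) :
    Z z x * Z z (-x) = 1 := by
  rw [← Z_add hz, add_neg_cancel, Z_zero]

lemma Z_ne_zero {L : Type} [Field L] {q : ℕ} [NeZero q] {z : L} (hz : z ^ q = 1) (x : ZMod q) :
    Z z x ≠ 0 := fun h => by
  have := Z_mul_neg hz x
  rw [h, zero_mul] at this
  exact zero_ne_one this

lemma Z_neg {L : Type} [Field L] {q : ℕ} [NeZero q] {z : L} (hz : z ^ q = 1) (x : ZMod q) :
    Z z (-x) = (Z z x)⁻¹ := by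
  exact (inv_eq_of_mul_eq_one_right (Z_mul_neg hz x)).symm

lemma conj_root {L : Type} [Field L] [NumberField L] {τ : L ≃ₐ[ℚ] L} (hτ : IsConj τ)
    {q : ℕ} [NeZero q] {z : L} (hz : z ^ q = 1) (x : ZMod q) : τ (Z z x) = Z z (-x) := by
  obtain ⟨φ⟩ : Nonempty (L →+* ℂ) := inferInstance
  apply φ.injective
  rw [hτ φ, Z_neg hz, map_inv₀]
  have h1 : (φ (Z z x)) ^ q = 1 := by
    rw [← map_pow]
    have : (Z z x) ^ q = 1 := by
      unfold Z
      rw [← pow_mul, mul_comm, pow_mul, hz, one_pow]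
    rw [this, map_one]
  have h2 : ‖φ (Z z x)‖ = 1 := Complex.norm_eq_one_of_pow_eq_one h1 (NeZero.ne q)
  rw [Complex.inv_def, Complex.normSq_eq_norm_sq, h2]
  simp

lemma conj_comm {L : Type} [Field L] [NumberField L] {τ : L ≃ₐ[ℚ] L} (hτ : IsConj τ)
    (σ : L ≃ₐ[ℚ] L) (x : L) : σ (τ x) = τ (σ x) := by
  obtain ⟨φ⟩ : Nonempty (L →+* ℂ) := inferInstance
  apply φ.injective
  rw [hτ φ]
  have := hτ (φ.comp (σ : L →+* L)) x
  simpa using this

lemma card_Q (p s : ℕ) [hp : Fact p.Prime] (hs : 1 ≤ s) (T : Finset (ZMod (p ^ s)))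
    (hT : ∀ y ∈ T, ∀ e : ZMod (p ^ s), (p : ZMod (p ^ s)) * e = 0 → y + e ∈ T) (hne : T.Nonempty) :
    p ≤ T.card := by
  obtain ⟨y, hy⟩ := hne
  have hppos : 0 < p := hp.out.pos
  have hq : p ^ s = p ^ (s - 1) * p := by
    rw [← pow_succ]; congr 1; omega
  have hinj : Set.InjOn (fun l : ℕ => y + ((p ^ (s - 1) * l : ℕ) : ZMod (p ^ s))) (range p : Finset ℕ) := by
    intro a ha b hb hab
    simp only [coe_range, Set.mem_Iio] at ha hb
    have h := add_left_cancel hab
    rw [ZMod.natCast_eq_natCast_iff] at h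
    have h1 : p ^ (s - 1) * a < p ^ s := by
      rw [hq]; exact Nat.mul_lt_mul_of_pos_left ha (pow_pos hppos _)
    have h2 : p ^ (s - 1) * b < p ^ s := by
      rw [hq]; exact Nat.mul_lt_mul_of_pos_left hb (pow_pos hppos _)
    have h3 := Nat.ModEq.eq_of_lt_of_lt h h1 h2
    exact Nat.eq_of_mul_eq_mul_left (pow_pos hppos _) h3
  have := Finset.card_le_card_of_injOn (s := range p) (t := T)
    (fun l : ℕ => y + ((p ^ (s - 1) * l : ℕ) : ZMod (p ^ s))) ?_ hinj
  · simpa using this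
  · intro l _
    apply hT y hy
    have : (p : ZMod (p ^ s)) * ((p ^ (s - 1) * l : ℕ) : ZMod (p ^ s))
        = ((p ^ s * l : ℕ) : ZMod (p ^ s)) := by
      rw [hq]; push_cast; ring
    rw [this, Nat.cast_mul, ZMod.natCast_self, zero_mul]

lemma num1 : ∀ B : ℕ, 1 ≤ B → 2 * B ^ 2 + B < 4 ^ B := by
  intro B hB
  induction B, hB using Nat.le_induction with
  | base => norm_num
  | succ n hn ih =>
    rw [pow_succ 4 n]
    nlinarith

end MON

open MON in
theorem mon (hCNJ : CNJStmt) (hREP : REPStmt) (hREL : RELStmt) (hRE0 : RE0Stmt) (hAMG : AMGStmt)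
    (hTRC : TRCStmt) (hMAJ : MAJStmt) (hDIR : DIRStmt) (hLAU : LAUStmt) : MONStmt := by
  classical
  intro p s w _ L _ _ z hC u m hm hp hu hφ
  have hppos : 0 < p := (Fact.out : p.Prime).pos
  haveI : NeZero (p ^ s) := ⟨(pow_pos hppos s).ne'⟩
  haveI : NeZero (p ^ s * w) := ⟨(Nat.mul_pos (pow_pos hppos s) hC.hw).ne'⟩
  have hzq : z ^ (p ^ s) = 1 := hC.hz.pow_eq_one
  set B : ℕ := m ^ 2 with hB
  have hB1 : 1 ≤ B := Nat.one_le_pow _ _ hm
  have hBp : 2 * B ^ 2 + B < p := (num1 B hB1).trans hp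
  obtain ⟨τ, hτ⟩ := hCNJ (p ^ s * w) L hC.cyc
  obtain ⟨c, hc, huc⟩ := hREP p s w L z hC u hu
  have hcard : (0 : ℝ) < (Fintype.card (L →+* ℂ) : ℝ) := by
    exact_mod_cast Fintype.card_pos
  -- the trace of u
  have hTu : T u = (m : ℝ) ^ 2 * (Fintype.card (L →+* ℂ) : ℝ) := by
    unfold T
    simp only [hφ]
    rw [sum_const, card_univ, nsmul_eq_mul, mul_comm]
  have htr := hTRC p s w L z hC c (fun x => (hc x).2)
  rw [← huc, hTu] at htr
  have hTnn : ∀ x : L, 0 ≤ T x := fun x => sum_nonneg (fun _ _ => by positivity)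
  -- the number of unequal pairs
  have hcount : ((univ ×ˢ univ : Finset (ZMod (p ^ s) × ZMod (p ^ s))).filter
    (fun xy => (p : ZMod (p ^ s)) * xy.2 = 0 ∧ c (xy.1 + xy.2) ≠ c xy.1)).card ≤ 2 * B * (p - 1) := by
    set F := ((univ ×ˢ univ : Finset (ZMod (p ^ s) × ZMod (p ^ s))).filter
      (fun xy => (p : ZMod (p ^ s)) * xy.2 = 0 ∧ c (xy.1 + xy.2) ≠ c xy.1)) with hF
    have h1 : (F.card : ℝ) * (Fintype.card (L →+* ℂ) : ℝ) ≤
        ∑ x, ∑ y ∈ univ.filter (fun y => (p : ZMod (p ^ s)) * y = 0), T (c (x + y) - c x) := by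
      calc (F.card : ℝ) * (Fintype.card (L →+* ℂ) : ℝ)
          = ∑ xy ∈ F, (Fintype.card (L →+* ℂ) : ℝ) := by rw [sum_const, nsmul_eq_mul]
        _ ≤ ∑ xy ∈ F, T (c (xy.1 + xy.2) - c xy.1) := by
            apply sum_le_sum
            intro xy hxy
            rw [hF, mem_filter] at hxy
            exact hAMG L _ ((hc _).1.sub (hc _).1) (sub_ne_zero.mpr hxy.2.2)
        _ ≤ ∑ xy ∈ (univ : Finset (ZMod (p ^ s))) ×ˢ univ.filter (fun y => (p : ZMod (p ^ s)) * y = 0),
              T (c (xy.1 + xy.2) - c xy.1) := by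
            apply sum_le_sum_of_subset_of_nonneg
            · intro xy hxy
              rw [hF, mem_filter] at hxy
              rw [mem_product]
              exact ⟨mem_univ _, mem_filter.mpr ⟨mem_univ _, hxy.2.1⟩⟩
            · intro _ _ _; exact hTnn _
        _ = _ := by rw [sum_product]
    rw [← htr] at h1
    have h2 : (F.card : ℝ) ≤ 2 * ((p : ℝ) - 1) * (m : ℝ) ^ 2 := by
      have : (F.card : ℝ) * (Fintype.card (L →+* ℂ) : ℝ) ≤
          (2 * ((p : ℝ) - 1) * (m : ℝ) ^ 2) * (Fintype.card (L →+* ℂ) : ℝ) := by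
        calc _ ≤ _ := h1
          _ = _ := by ring
      exact le_of_mul_le_mul_right this hcard
    have h3 : ((2 * B * (p - 1) : ℕ) : ℝ) = 2 * ((p : ℝ) - 1) * (m : ℝ) ^ 2 := by
      rw [hB]; push_cast [Nat.cast_sub hppos]; ring
    rw [← h3] at h2
    exact_mod_cast h2
  obtain ⟨b, hb, hbc⟩ := hMAJ p s hC.hs L c B hBp hcount
  set S : Finset (ZMod (p ^ s)) := univ.filter (fun x => c x ≠ c (b x)) with hS
  set A : ZMod (p ^ s) → L := fun x => c x - c (b x) with hA
  have hAS : ∀ x, A x ≠ 0 ↔ x ∈ S := by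
    intro x
    rw [hS, mem_filter]
    simp [hA, sub_ne_zero]
  have hAint : ∀ x, IsIntegral ℤ (A x) := fun x => (hc x).1.sub (hc _).1
  have hAM : ∀ x, InM w (A x) := by
    intro x σ hσ
    simp only [hA, map_sub, (hc _).2 σ hσ]
  have huA : u = ∑ x, A x * Z z x := by
    have h0 := hRE0 p s L z hC.hs hC.hz (fun x => c (b x)) (by
      intro x y hy
      simp only [hb x y hy])
    simp only [hA, sub_mul, sum_sub_distrib]
    rw [← huc, h0, sub_zero]
  have hBS : ∀ x, τ (A x) ≠ 0 ↔ x ∈ S := by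
    intro x
    rw [← hAS x]
    simp
  -- the norm equation
  have hnorm : u * τ u = (m : L) ^ 2 := by
    obtain ⟨φ⟩ : Nonempty (L →+* ℂ) := inferInstance
    apply φ.injective
    rw [map_mul, hτ φ, Complex.mul_conj, Complex.normSq_eq_norm_sq, hφ φ]
    push_cast
    simp
  have hτu : τ u = ∑ x, τ (A x) * Z z (-x) := by
    conv_lhs => rw [huA]
    rw [map_sum]
    exact sum_congr rfl (fun x _ => by rw [map_mul, conj_root hτ hzq])
  set bb : ZMod (p ^ s) → L := fun d => (∑ y, A (y + d) * τ (A y)) - if d = 0 then (m : L) ^ 2 else 0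
    with hbb
  have hprod : u * τ u = ∑ d, (∑ y, A (y + d) * τ (A y)) * Z z d := by
    rw [hτu]
    conv_lhs => rw [huA]
    rw [sum_mul_sum, sum_comm]
    have : ∀ y : ZMod (p ^ s), ∑ x, A x * Z z x * (τ (A y) * Z z (-y)) =
        ∑ d, A (y + d) * τ (A y) * Z z d := by
      intro y
      rw [← Equiv.sum_comp (Equiv.addLeft y)]
      apply sum_congr rfl
      intro d _
      simp only [Equiv.coe_addLeft]
      rw [Z_add hzq y d]
      have := Z_mul_neg hzq y
      linear_combination (A (y + d) * τ (A y) * Z z d) * this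
    rw [sum_congr rfl (fun y _ => this y), sum_comm]
    exact sum_congr rfl (fun d _ => by rw [sum_mul])
  have hbb0 : ∑ d, bb d * Z z d = 0 := by
    simp only [hbb, sub_mul, sum_sub_distrib]
    rw [← hprod, hnorm]
    simp [Z_zero]
  have hbbM : ∀ x, InM w (bb x) := by
    intro x σ hσ
    simp only [hbb, map_sub, map_sum, map_mul, conj_comm hτ σ, hAM _ σ hσ]
    congr 1
    split_ifs <;> simp
  have hbbper := hREL p s w L z hC bb hbbM hbb0
  have hScard : S.card ≤ B := hbc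
  have hbbz : ∀ d, bb d = 0 := by
    by_contra hcon
    push Not at hcon
    obtain ⟨d0, hd0⟩ := hcon
    have h1 := card_Q p s hC.hs (univ.filter (fun x => bb x ≠ 0)) (by
      intro y hy e he
      rw [mem_filter] at hy ⊢
      exact ⟨mem_univ _, by rw [hbbper y e he]; exact hy.2⟩)
      ⟨d0, mem_filter.mpr ⟨mem_univ _, hd0⟩⟩
    have h2 : (univ.filter (fun x => bb x ≠ 0)) ⊆
        insert 0 ((S ×ˢ S).image (fun xy => xy.1 - xy.2)) := by
      intro d hd
      rw [mem_filter] at hd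
      rw [mem_insert]
      by_cases hd00 : d = 0
      · exact Or.inl hd00
      right
      have h3 : ∑ y, A (y + d) * τ (A y) ≠ 0 := by
        have := hd.2
        simpa [hbb, hd00] using this
      obtain ⟨y, _, hy⟩ := exists_ne_zero_of_sum_ne_zero h3
      rw [mem_image]
      refine ⟨(y + d, y), mem_product.mpr ⟨(hAS _).1 (left_ne_zero_of_mul hy),
        (hBS _).1 (right_ne_zero_of_mul hy)⟩, by simp⟩
    have h3 : (univ.filter (fun x => bb x ≠ 0)).card ≤ S.card * S.card + 1 := by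
      refine (card_le_card h2).trans ((card_insert_le _ _).trans ?_)
      exact Nat.add_le_add_right (card_image_le.trans (card_product _ _).le) 1
    have h4 : S.card * S.card ≤ B ^ 2 := by rw [sq]; exact Nat.mul_le_mul hScard hScard
    nlinarith
  have hcor : ∀ d : ZMod (p ^ s), d ≠ 0 → ∑ y, A (y + d) * (fun x => τ (A x)) y = 0 := by
    intro d hd
    have := hbbz d
    simpa [hbb, hd] using this
  obtain ⟨t, ht⟩ := hDIR p s hC.hs S (lt_of_le_of_lt (Nat.pow_le_pow_right (by norm_num) hScard) hp)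
  have hS1 := hLAU p s L A (fun x => τ (A x)) S t hAS hBS ht hcor
  have hune : u ≠ 0 := by
    rintro rfl
    obtain ⟨φ⟩ : Nonempty (L →+* ℂ) := inferInstance
    have := hφ φ
    rw [map_zero, norm_zero] at this
    have : (m : ℝ) = 0 := this.symm
    have : m = 0 := by exact_mod_cast this
    omega
  have hSne : S.Nonempty := by
    rw [nonempty_iff_ne_empty]
    intro hSe
    apply hune
    rw [huA]
    apply sum_eq_zero
    intro x _
    have : A x = 0 := by
      by_contra h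
      have := (hAS x).1 h
      rw [hSe] at this
      simp at this
    rw [this, zero_mul]
  obtain ⟨x0, hx0⟩ := card_eq_one.mp (le_antisymm hS1 (card_pos.mpr hSne))
  refine ⟨A x0, x0, hAM x0, hAint x0, ?_⟩
  conv_lhs => rw [huA]
  apply sum_eq_single_of_mem x0 (mem_univ _)
  intro x _ hx
  have : A x = 0 := by
    by_contra h
    have := (hAS x).1 h
    rw [hx0, mem_singleton] at this
    exact hx this
  rw [this, zero_mul]

end LAN
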