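import Pool.Agent.H49.LAN.Stmts

set_option autoImplicit false

open scoped BigOperators
open Finset

namespace LAN

namespace ROO

lemma Z_add {L : Type} [Field L] {q : ℕ} [NeZero q] {z : L} (hz : z ^ q = 1) (x y : ZMod q) :
    Z z (x + y) = Z z x * Z z y := by
  unfold Z
  rw [← pow_add, ZMod.val_add]
  conv_rhs => rw [← Nat.div_add_mod (x.val + y.val) q, pow_add, pow_mul, hz, one_pow, one_mul]

lemma Z_zero {L : Type} [Field L] {q : ℕ} [NeZero q] (z : L) : Z z (0 : ZMod q) = 1 := by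
  simp [Z]

lemma Z_pow {L : Type} [Field L] {q : ℕ} {z : L} (hz : z ^ q = 1) (x : ZMod q) :
    (Z z x) ^ q = 1 := by
  unfold Z
  rw [← pow_mul, mul_comm, pow_mul, hz, one_pow]

lemma conj_comm {L : Type} [Field L] [NumberField L] {τ : L ≃ₐ[ℚ] L} (hτ : IsConj τ)
    (σ : L ≃ₐ[ℚ] L) (x : L) : σ (τ x) = τ (σ x) := by
  obtain ⟨φ⟩ : Nonempty (L →+* ℂ) := inferInstance
  apply φ.injective
  rw [hτ φ]
  have := hτ (φ.comp (σ : L →+* L)) x
  simpa using this

end ROO

open ROO in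
theorem coc (hGA2 : GA2Stmt) : COCStmt := by
  intro p s w _ L _ _ z hC σ hσ e c x he hc hse
  have hppos : 0 < p := (Fact.out : p.Prime).pos
  have : NeZero (p ^ s) := ⟨(pow_pos hppos s).ne'⟩
  have hzq : z ^ (p ^ s) = 1 := hC.hz.pow_eq_one
  obtain ⟨t, ht⟩ := hGA2 p s w L z hC σ
  have hσc : σ c = c := hc σ hσ
  have key : ∀ j : ℕ, ∃ y : ZMod (p ^ s), (σ ^ j) e = c ^ j * Z z y * e := by
    intro j
    induction j with
    | zero => exact ⟨0, by simp [Z_zero]⟩
    | succ n ih =>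
      obtain ⟨y, hy⟩ := ih
      refine ⟨(t : ZMod (p ^ s)) * y + x, ?_⟩
      rw [pow_succ', AlgEquiv.mul_apply, hy, map_mul, map_mul, map_pow, hσc, ht, hse,
        Z_add hzq, pow_succ]
      ring
  have hfin : IsOfFinOrder σ := isOfFinOrder_of_finite σ
  obtain ⟨M, hM, hσM⟩ := hfin.exists_pow_eq_one
  obtain ⟨y, hy⟩ := key M
  rw [hσM, AlgEquiv.one_apply] at hy
  have h1 : c ^ M * Z z y = 1 := by
    have : (c ^ M * Z z y) * e = 1 * e := by rw [one_mul]; exact hy.symm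
    exact mul_right_cancel₀ he this
  refine ⟨M * p ^ s, Nat.mul_pos hM (pow_pos hppos s), ?_⟩
  have h2 : (c ^ M * Z z y) ^ (p ^ s) = 1 := by rw [h1, one_pow]
  rw [mul_pow, Z_pow hzq, mul_one, ← pow_mul] at h2
  exact h2

open ROO in
theorem roo (hDIV : DIVStmt) (hMON : MONStmt) (hCOC : COCStmt) : ROOStmt := by
  intro p s w _ L _ _ z hC τ hτ e a m he hem hm hmp σ hσ
  have hppos : 0 < p := (Fact.out : p.Prime).pos
  have : NeZero (p ^ s) := ⟨(pow_pos hppos s).ne'⟩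
  have hzq : z ^ (p ^ s) = 1 := hC.hz.pow_eq_one
  have hpL : (p : L) ≠ 0 := by exact_mod_cast hppos.ne'
  have hmL : (m : L) ≠ 0 := by
    have : m ≠ 0 := by omega
    exact_mod_cast this
  have hne : e ≠ 0 := by
    rintro rfl
    rw [zero_mul] at hem
    exact (mul_ne_zero (pow_ne_zero a hpL) hmL) hem.symm
  have hτint : IsIntegral ℤ (τ e) := he.map (τ.toAlgHom.restrictScalars ℤ)
  have hmint : IsIntegral ℤ (m : L) := by
    have := isIntegral_algebraMap (R := ℤ) (A := L) (x := (m : ℤ))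
    simpa using this
  have hu := hDIV p s w L z hC σ hσ e (τ e) (m : L) a he hτint hmint hem
  set u : L := σ e * τ e / (p : L) ^ a with hudef
  have hue : u * e = σ e * m := by
    rw [hudef]
    field_simp
    linear_combination (σ e) * hem
  have hnsq : ∀ φ : L →+* ℂ, ‖φ e‖ ^ 2 = (p : ℝ) ^ a * m := by
    intro φ
    have h := congrArg φ hem
    rw [map_mul, hτ φ, Complex.mul_conj, Complex.normSq_eq_norm_sq] at h
    have : ((‖φ e‖ ^ 2 : ℝ) : ℂ) = (((p : ℝ) ^ a * m : ℝ) : ℂ) := by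
      rw [h]; push_cast; simp
    exact_mod_cast this
  have hun : ∀ φ : L →+* ℂ, ‖φ u‖ = m := by
    intro φ
    have h1 : ‖φ (σ e)‖ ^ 2 = (p : ℝ) ^ a * m := by
      have := hnsq (φ.comp (σ : L →+* L))
      simpa using this
    have h2 : ‖φ (τ e)‖ ^ 2 = (p : ℝ) ^ a * m := by
      have := hnsq (φ.comp (τ : L →+* L))
      simpa using this
    have h3 : ‖φ u‖ ^ 2 = (m : ℝ) ^ 2 := by
      rw [hudef, map_div₀, map_mul, norm_div, norm_mul, div_pow, mul_pow, h1, h2, map_pow, norm_pow]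
      have : ‖φ (p : L)‖ = (p : ℝ) := by rw [map_natCast]; simp
      rw [this]
      have hp0 : (p : ℝ) ≠ 0 := by exact_mod_cast hppos.ne'
      field_simp
    exact (sq_eq_sq₀ (norm_nonneg _) (by positivity)).mp h3
  rcases eq_or_ne m 1 with hm1 | hm1
  · obtain ⟨n, hn, hun1⟩ := NumberField.Embeddings.pow_eq_one_of_norm_eq_one L ℂ hu
      (fun φ => by rw [hun φ, hm1]; simp)
    refine ⟨u, ⟨n, hn, hun1⟩, ?_⟩
    rw [hue, hm1]; simp
  · have hmp' : 4 ^ (m ^ 2) < p := hmp.resolve_left hm1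
    obtain ⟨c, x, hcM, hcI, huc⟩ := hMON p s w L z hC u m hm hmp' hu hun
    have hse : σ e = (c / m) * Z z x * e := by
      have h1 : σ e * m = c * Z z x * e := by rw [← hue, huc]
      field_simp
      linear_combination h1
    have hcM' : InM w (c / (m : L)) := by
      intro σ' hσ'
      rw [map_div₀, hcM σ' hσ', map_natCast]
    obtain ⟨M, hM, hcMM⟩ := hCOC p s w L z hC σ hσ e (c / m) x hne hcM' hse
    refine ⟨(c / m) * Z z x, ⟨M * p ^ s, Nat.mul_pos hM (pow_pos hppos s), ?_⟩, hse⟩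
    rw [mul_pow, pow_mul, hcMM, one_pow, one_mul, mul_comm M, pow_mul, Z_pow hzq, one_pow]

end LAN
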